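import Pool.Agent.Y771.NF.FinD

/-!
# The zeros of the derivatives of the Ramanujan Xi function are real and simple up to an exponentially small proportion

The Ramanujan Xi function is `Ξ_Δ(z) = Λ(6 + i z)`, `Λ(s) = (2π)^(-s) Γ(s) L(s, Δ)`. The conjecture that all its zeros are
real (the Riemann hypothesis for `L(s, Δ)`) implies the same for all its derivatives. We prove unconditionally: there are
constants `c, C > 0` such that for every `n ≥ 0` and every `T` the proportion of the zeros of the `n`-th derivative of
`Ξ_Δ` with real part in `(0, T]` which are not real or not simple is at most `C exp (-c n)`, and their number is at most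
`C exp (-c n) T log T` (`T ≥ 2`).

Proof: the general theory is project GD2 of helper671 (modules `Pool.Agent.Y671` and imports, stated there for L-functions
given by axioms); the axioms are verified for all newforms with real coefficients in `Pool.Agent.Y771.NF` and
`Pool.Agent.Y771.GL`. The main points are an asymptotic formula for the mollified second moment of `L(s, Δ)` near the
critical line, at all scales down to `1 / log T`, and a local theorem on the zeros of derivatives.
-/

set_option autoImplicit false

namespace Pool.Agent.Results.MP_cd509c_nt.DerivativesDensity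

/-- `Δ(i y) = e^(-2πy) ∏_{n ≥ 1} (1 - e^(-2πny))^24`, the modular discriminant on the imaginary axis
(the function of the frozen statement S18517). -/
noncomputable def delta (y : ℝ) : ℝ :=
  Real.exp (-2 * Real.pi * y) * ∏' n : ℕ, (1 - Real.exp (-2 * Real.pi * ((n : ℝ) + 1) * y)) ^ 24

/-- The completed L-function `Λ(s) = ∫_0^∞ Δ(i y) y^(s-1) dy = (2π)^(-s) Γ(s) L(s, Δ)`, an entire
function with `Λ(12 - s) = Λ(s)`. -/
noncomputable def Lam (s : ℂ) : ℂ := mellin (fun y : ℝ => ((delta y : ℝ) : ℂ)) s

/-- The Ramanujan Xi function `Ξ_Δ(z) = Λ(6 + i z)`. -/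
noncomputable def Xi (z : ℂ) : ℂ := Lam (6 + Complex.I * z)

/-- The zeros of the `n`-th derivative of `Ξ_Δ` with real part in `(0, T]`. -/
def Zer (n : ℕ) (T : ℝ) : Set ℂ := {z | iteratedDeriv n Xi z = 0 ∧ 0 < z.re ∧ z.re ≤ T}

/-- The exceptional ones: not real, or multiple. -/
def Exc (n : ℕ) (T : ℝ) : Set ℂ := {z | z ∈ Zer n T ∧ (z.im ≠ 0 ∨ iteratedDeriv (n + 1) Xi z = 0)}

/-- The number of points of `A`, each counted with its multiplicity as a zero of the `n`-th derivative of `Ξ_Δ`. -/
noncomputable def num (n : ℕ) (A : Set ℂ) : ℕ := ∑ᶠ z ∈ A, analyticOrderNatAt (iteratedDeriv n Xi) z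

/-- There are `c, C > 0` such that for all `n ≥ 0` and all `T` at most the proportion `C exp (-c n)` of the zeros of the
`n`-th derivative of the Ramanujan Xi function with real part in `(0, T]`, counted with multiplicity, are not real or not
simple; and for `T ≥ 2` the number of these exceptional zeros is at most `C exp (-c n) T log T`. -/
theorem result :
    (∀ (n : ℕ) (T : ℝ), (Zer n T).Finite) ∧
    ∃ c C : ℝ, 0 < c ∧ 0 < C ∧
      (∀ (n : ℕ) (T : ℝ), (num n (Exc n T) : ℝ) ≤ C * Real.exp (-(c * n)) * num n (Zer n T)) ∧
      (∀ (n : ℕ) (T : ℝ), 2 ≤ T → (num n (Exc n T) : ℝ) ≤ C * Real.exp (-(c * n)) * T * Real.log T) :=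
  Pool.Agent.Y771.NF.derivs (N := 1) (k := 12) (by norm_num) Pool.Agent.Y771.NF.newf_delta Xi fun z => by
    rw [Pool.Agent.Y771.NF.Lam_delta]
    have h : (((12 : ℕ) : ℂ)) / 2 = 6 := by norm_num
    rw [h]
    rfl

end Pool.Agent.Results.MP_cd509c_nt.DerivativesDensity
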