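import Pool.Agent.Y771.NF.FinH

/-!
# The zeros of the heat flow of the Ramanujan Xi function are real and simple up to a small proportion

The Ramanujan Xi function is `Ξ_Δ(z) = Λ(6 + i z)`, `Λ(s) = (2π)^(-s) Γ(s) L(s, Δ)`. Let `Ξ_t(z) = Λ_t(6 + i z)`, where
`Λ_t = exp (t D²) Λ`, `D = d/ds`, is the heat flow. All zeros of `Ξ_Δ` are real if and only if all zeros of `Ξ_t` are real
for all `t > 0`. We prove unconditionally: there are constants `c, C > 0` such that for `0 < t ≤ 1/8`, `T ≥ 2` at most the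
proportion `C exp (-c t log² T)` of the zeros of `Ξ_t` with real part in `(T, 2T]` are not real or not simple, and their
number is at most `C exp (-c t log² T) T log T`.

Proof: the general theory is project GD2 of helper671 (modules `Pool.Agent.Y671` and imports, stated there for L-functions
given by axioms); the axioms are verified for all newforms with real coefficients in `Pool.Agent.Y771.NF` and
`Pool.Agent.Y771.GL`.
-/

set_option autoImplicit false

namespace Pool.Agent.Results.MP_cd509c_nt.HeatFlowDensity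

/-- `Δ(i y) = e^(-2πy) ∏_{n ≥ 1} (1 - e^(-2πny))^24`, the modular discriminant on the imaginary axis
(the function of the frozen statement S18517). -/
noncomputable def delta (y : ℝ) : ℝ :=
  Real.exp (-2 * Real.pi * y) * ∏' n : ℕ, (1 - Real.exp (-2 * Real.pi * ((n : ℝ) + 1) * y)) ^ 24

/-- The completed L-function `Λ(s) = ∫_0^∞ Δ(i y) y^(s-1) dy = (2π)^(-s) Γ(s) L(s, Δ)`, an entire
function with `Λ(12 - s) = Λ(s)`. -/
noncomputable def Lam (s : ℂ) : ℂ := mellin (fun y : ℝ => ((delta y : ℝ) : ℂ)) s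

/-- The heat flow `Λ_t = e^{t D²} Λ` (`D = d/ds`) as a Gaussian average:
`Λ_t(s) = π^(-1/2) ∫ exp (-v²) Λ(s + 2 √t v) dv`. -/
noncomputable def heat (t : ℝ) (Λ : ℂ → ℂ) (s : ℂ) : ℂ :=
  ((1 / Real.sqrt Real.pi : ℝ) : ℂ) *
    ∫ v : ℝ, ((Real.exp (-v ^ 2) : ℝ) : ℂ) * Λ (s + ((2 * Real.sqrt t * v : ℝ) : ℂ))

/-- `Ξ_t(z) = Λ_t(6 + i z)`; `Ξ_0` is the Ramanujan Xi function. -/
noncomputable def Xi (t : ℝ) (z : ℂ) : ℂ := heat t Lam (6 + Complex.I * z)

/-- The zeros of `Ξ_t` with real part in `(T, 2T]`. -/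
def Zer (t T : ℝ) : Set ℂ := {z | Xi t z = 0 ∧ T < z.re ∧ z.re ≤ 2 * T}

/-- The exceptional ones: not real, or multiple. -/
def Exc (t T : ℝ) : Set ℂ := {z | z ∈ Zer t T ∧ (z.im ≠ 0 ∨ deriv (Xi t) z = 0)}

/-- The number of points of `A`, each counted with its multiplicity as a zero of `Ξ_t`. -/
noncomputable def num (t : ℝ) (A : Set ℂ) : ℕ := ∑ᶠ z ∈ A, analyticOrderNatAt (Xi t) z

/-- There are `c, C > 0` such that for `0 < t ≤ 1/8`, `T ≥ 2` at most the proportion `C exp (-c t log² T)` of the zeros of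
`Ξ_t` with real part in `(T, 2T]`, counted with multiplicity, are not real or not simple; and the number of these
exceptional zeros is at most `C exp (-c t log² T) T log T`. -/
theorem result :
    (∀ t T : ℝ, 0 ≤ t → (Zer t T).Finite) ∧
    ∃ c C : ℝ, 0 < c ∧ 0 < C ∧ ∀ t T : ℝ, 0 < t → t ≤ 1 / 8 → 2 ≤ T →
      (num t (Exc t T) : ℝ) ≤ C * Real.exp (-(c * t * Real.log T ^ 2)) * num t (Zer t T) ∧
      (num t (Exc t T) : ℝ) ≤ C * Real.exp (-(c * t * Real.log T ^ 2)) * T * Real.log T :=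
  Pool.Agent.Y771.NF.flow (N := 1) (k := 12) (by norm_num) Pool.Agent.Y771.NF.newf_delta Xi fun t z => by
    have h1 : Pool.Agent.Y771.NF.Lam (N := 1) (k := 12) Pool.Agent.W97.TW.deltaForm = Lam :=
      funext fun s => Pool.Agent.Y771.NF.Lam_delta s
    have h : (((12 : ℕ) : ℂ)) / 2 = 6 := by norm_num
    rw [h1, h]
    rfl

end Pool.Agent.Results.MP_cd509c_nt.HeatFlowDensity
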