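import Pool.Agent.Y771.NF.Dn
import Pool.Agent.Y22.RX4

/-!
# The Ramanujan Xi function grows away from the real line at almost all abscissas

The Ramanujan Xi function is `Ξ_Δ(z) = Λ(6 + i z)`, `Λ(s) = (2π)^(-s) Γ(s) L(s, Δ)`. All its zeros are real if and only
if for every real `x` the function `y ↦ |Ξ_Δ(x + i y)|` is strictly increasing on `y ≥ 0`. We prove unconditionally, for
EVERY `c < 1`: for all `r ≥ 0` and `T ≥ 2` the abscissas `x` in `[0, T]` at which it is not strictly increasing on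
`y ≥ r / log T` form a set of measure at most `C e^(-c r) T`.

Proof: a zero `a + i b` of `Ξ_Δ` disturbs the growth only for `|x - a| < |b|` (Hadamard product), and the zeros with
`|b| > r / log T` are few by the density theorem of helper771, helper24 and helper671 (modules `Pool.Agent.Y771`,
`Pool.Agent.Y24`, `Pool.Agent.Y671`).
-/

set_option autoImplicit false

namespace Pool.Agent.Results.MP_cd509c_nt.HorizontalGrowth

/-- `Δ(i y) = e^(-2πy) ∏_{n ≥ 1} (1 - e^(-2πny))^24`, the modular discriminant on the imaginary axis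
(the function of the frozen statement S18517). -/
noncomputable def delta (y : ℝ) : ℝ :=
  Real.exp (-2 * Real.pi * y) * ∏' n : ℕ, (1 - Real.exp (-2 * Real.pi * ((n : ℝ) + 1) * y)) ^ 24

/-- The completed L-function `Λ(s) = ∫_0^∞ Δ(i y) y^(s-1) dy = (2π)^(-s) Γ(s) L(s, Δ)`, an entire
function with `Λ(12 - s) = Λ(s)`. -/
noncomputable def Lam (s : ℂ) : ℂ := mellin (fun y : ℝ => ((delta y : ℝ) : ℂ)) s

/-- The Ramanujan Xi function `Ξ_Δ(z) = Λ(6 + i z)`. -/
noncomputable def Xi (z : ℂ) : ℂ := Lam (6 + Complex.I * z)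

/-- For every `c < 1` there is `C` such that for all `r ≥ 0` and `T ≥ 2`: the real numbers `x` in `[0, T]` for which
`y ↦ |Ξ_Δ(x + i y)|` is not strictly increasing on the half-line `y ≥ r / log T` form a set of Lebesgue (outer) measure
at most `C e^(-c r) T`. -/
theorem result (c : ℝ) (hc : c < 1) :
    ∃ C : ℝ, 0 < C ∧ ∀ r T : ℝ, 0 ≤ r → 2 ≤ T →
      MeasureTheory.volume {x : ℝ | 0 ≤ x ∧ x ≤ T ∧
        ¬ StrictMonoOn (fun y : ℝ => ‖Xi (x + y * Complex.I)‖) (Set.Ici (r / Real.log T))} ≤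
      ENNReal.ofReal (C * Real.exp (-(c * r)) * T) :=
  Pool.Agent.Y22.RX.delta_of (G := Xi) (fun _ => rfl)
    (fun _ hc' => Pool.Agent.Y771.NF.off (N := 1) (k := 12) (by norm_num) Pool.Agent.Y771.NF.newf_delta Xi (fun z => by
      rw [Pool.Agent.Y771.NF.Lam_delta]
      have h : (((12 : ℕ) : ℂ)) / 2 = 6 := by norm_num
      rw [h]
      rfl) hc') hc

end Pool.Agent.Results.MP_cd509c_nt.HorizontalGrowth
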