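import Pool.Agent.Y771.NF.Dn

/-!
# Zeros of the Ramanujan Xi function off the real line: a log-free density theorem

The Ramanujan Xi function is `Ξ_Δ(z) = Λ(6 + i z)`, `Λ(s) = (2π)^(-s) Γ(s) L(s, Δ)`; it is conjectured that all its zeros are
real. We prove unconditionally, for EVERY `c < 1`: the number of zeros of `Ξ_Δ` with real part in `(0, T]` and distance at
least `δ` from the real line, counted with multiplicity, is at most `C T^(1 - c δ) log T`, for all `δ ≥ 0` and all `T ≥ 2`.
In particular the number of those at distance at least `h / log T` is at most `C e^(-c h) T log T`.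

Proof: the density theorem of helper24 for L-functions given by axioms (modules `Pool.Agent.Y24.GL`), which rests on the
mollified second moment of project GD2 of helper671 (shifted convolution sums by Jutila's circle method); the
axioms are verified for all newforms with real coefficients in `Pool.Agent.Y771.NF` and `Pool.Agent.Y771.GL`.
-/

set_option autoImplicit false

namespace Pool.Agent.Results.MP_cd509c_nt.ZeroDensity

/-- `Δ(i y) = e^(-2πy) ∏_{n ≥ 1} (1 - e^(-2πny))^24`, the modular discriminant on the imaginary axis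
(the function of the frozen statement S18517). -/
noncomputable def delta (y : ℝ) : ℝ :=
  Real.exp (-2 * Real.pi * y) * ∏' n : ℕ, (1 - Real.exp (-2 * Real.pi * ((n : ℝ) + 1) * y)) ^ 24

/-- The completed L-function `Λ(s) = ∫_0^∞ Δ(i y) y^(s-1) dy = (2π)^(-s) Γ(s) L(s, Δ)`, an entire
function with `Λ(12 - s) = Λ(s)`. -/
noncomputable def Lam (s : ℂ) : ℂ := mellin (fun y : ℝ => ((delta y : ℝ) : ℂ)) s

/-- The Ramanujan Xi function `Ξ_Δ(z) = Λ(6 + i z)`. -/
noncomputable def Xi (z : ℂ) : ℂ := Lam (6 + Complex.I * z)

/-- The zeros of `Ξ_Δ` with real part in `(0, T]` and distance at least `δ` from the real line. -/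
def Off (δ T : ℝ) : Set ℂ := {z | Xi z = 0 ∧ δ ≤ |z.im| ∧ 0 < z.re ∧ z.re ≤ T}

/-- The number of points of `A`, each counted with its multiplicity as a zero of `Ξ_Δ`. -/
noncomputable def num (A : Set ℂ) : ℕ := ∑ᶠ z ∈ A, analyticOrderNatAt Xi z

/-- For every `c < 1` there is `C` such that for all `δ ≥ 0` and `T ≥ 2` the number of zeros of the Ramanujan Xi function
with real part in `(0, T]` and distance at least `δ` from the real line, counted with multiplicity, is at most
`C T^(1 - c δ) log T`. -/
theorem result (c : ℝ) (hc : c < 1) :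
    ∃ C : ℝ, 0 < C ∧ ∀ δ T : ℝ, 0 ≤ δ → 2 ≤ T →
      (Off δ T).Finite ∧ (num (Off δ T) : ℝ) ≤ C * T ^ (1 - c * δ) * Real.log T :=
  Pool.Agent.Y771.NF.off (N := 1) (k := 12) (by norm_num) Pool.Agent.Y771.NF.newf_delta Xi (fun z => by
    rw [Pool.Agent.Y771.NF.Lam_delta]
    have h : (((12 : ℕ) : ℂ)) / 2 = 6 := by norm_num
    rw [h]
    rfl) hc

end Pool.Agent.Results.MP_cd509c_nt.ZeroDensity
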